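import Pool.Agent.H18.XZ.TB
import Pool.Agent.H79.OQ.TBI

/-!
Row TDL of the board exz_modules: a formula is rarely not a decision tree over the live rows.
-/

set_option autoImplicit false

namespace Pool.Agent.H61.XZ

open Finset Pool.Agent.H70.OQ Pool.Agent.H18.XZ Pool.Agent.H79.OQ.TB1 Pool.Agent.H79.OQ.TBI

theorem uw_univ {A Z : Type} [Fintype A] [DecidableEq A] [Fintype Z] [DecidableEq Z]
    (h : A → Z) : uw (fun _ : A => (univ : Finset Z)) h = 1 / (Fintype.card Z : ℝ) ^ Fintype.card A := by
  unfold uw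
  simp

/-- TDL -/
theorem pf_TDL (hTDI : T_TDI) (hFMM : Pool.Agent.H70.OQ.T_FMM) : T_TDL := by
  intro X Y _ _ _ _ _ k S t w G q hw htw hq hq64 hG hY f hf
  have hq1 := q_le hw hq hq64
  cases k with
  | zero =>
    have h1 : ∀ (l : X → Bool) (H : Hid X Y 0), ic (¬ DTp w 0 f l H) = 0 := by
      intro l H
      unfold ic
      rw [if_neg]
      rw [not_not]
      obtain ⟨T, hT, hT2⟩ := hf
      exact ⟨T, hT.trans htw, fun b _ => hT2 b⟩
    simp only [h1, sum_const_zero, mul_zero]
    exact mul_nonneg (errT_nonneg X Y S w G hq.le hq1 0) (Nat.cast_nonneg _)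
  | succ k =>
    have hY' : ∀ i < k, G * Fintype.card (Node X Y i) ≤ Fintype.card (Y i) :=
      fun i hi => hY i (by omega)
    have hYk : G * Fintype.card (Node X Y k) ≤ Fintype.card (Y k) := hY k (by omega)
    have key := hTDI X Y S w G q hw hq hq64 k hY' (fun _ => univ) f
      (hFMM _ S S t w (k + 1) f le_rfl htw hf) (fun a => by
        rw [card_univ]
        exact le_trans (Nat.le_mul_of_pos_left _ hG) hYk)
    have hc : (0 : ℝ) < (Fintype.card (Y k) : ℝ) ^ Fintype.card (Node X Y k) := by
      have : 0 < Fintype.card (Y k) := Fintype.card_pos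
      positivity
    have e1 : ∑ l : X → Bool, lw q l * ∑ H : Hid X Y k, ∑ h : Node X Y k → Y k,
        uw (fun _ : Node X Y k => (univ : Finset (Y k))) h *
          ic (¬ DTp w (k + 1) f l ((H, h) : Hid X Y (k + 1))) =
        (∑ l : X → Bool, lw q l * ∑ H : Hid X Y (k + 1), ic (¬ DTp w (k + 1) f l H)) /
          (Fintype.card (Y k) : ℝ) ^ Fintype.card (Node X Y k) := by
      rw [sum_div]
      refine sum_congr rfl fun l _ => ?_
      rw [mul_div_assoc]
      congr 1
      rw [sum_hid (X := X) (Y := Y) k, sum_div]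
      refine sum_congr rfl fun H _ => ?_
      rw [sum_div]
      refine sum_congr rfl fun h _ => ?_
      rw [uw_univ]
      ring
    rw [e1, div_le_iff₀ hc] at key
    refine key.trans ?_
    have h2 : errT X Y S w G q k ≤ errT X Y S w G q (k + 1) := by
      rw [errT_succ]
      have h3 : (0 : ℝ) ≤ 1 - q := by linarith
      have h4 : (0 : ℝ) ≤ ((S : ℝ) + 1) ^ (k + 1) * (5 / 2 ^ (w + 1)) +
        (Fintype.card (Node X Y k) : ℝ) ^ 2 * (1 - q) ^ G := by positivity
      linarith
    have h5 : errT X Y S w G q k * (Fintype.card (Hid X Y k)) *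
        (Fintype.card (Y k) : ℝ) ^ Fintype.card (Node X Y k) =
        errT X Y S w G q k * Fintype.card (Hid X Y (k + 1)) := by
      rw [card_hid]
      push_cast
      ring
    rw [h5]
    exact mul_le_mul_of_nonneg_right h2 (Nat.cast_nonneg _)

end Pool.Agent.H61.XZ
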