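import Pool.Agent.H18.XZ.TD
import Pool.Agent.H66.IP.TC
import Pool.Agent.H40.XX.CTN
import Pool.Agent.H79.OQ.TBI

/-!
Row HYM of exz_modules (MP_0f8dca_lc): the replacement of the blocks of large scale for an event.
-/

set_option autoImplicit false

namespace Pool.Agent.H61.XZ

open Finset Pool.Agent.H6.NB Pool.Agent.H70.OQ Pool.Agent.H70.EH Pool.Agent.H70.EI Pool.Agent.H78.XQ
open Pool.Agent.H66.IP (Local ins sp dm IsZ scl mBp m0p)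
open Pool.Agent.H66.IQ Pool.Agent.H66.AV
open Pool.Agent.H18.XX (Exa lx ax GoodZ Cz wz wy RhZ bd Rhd)
open Pool.Agent.H18.XZ

theorem hym_term (s u N : ℕ) (hs : 20 ≤ s) (hu : s < u) (hN : N ≤ 2 ^ u) :
    2 ^ N * (1 / 2 ^ 2 ^ (u + 3)) ≤ (1 / 2 : ℝ) ^ 2 ^ (s + 2) * (1 / 2 : ℝ) ^ u ^ 3 := by
  have h1 : N + (2 ^ (s + 2) + u ^ 3) ≤ 2 ^ (u + 3) := by
    have h2 := Pool.Agent.H40.XX.cube_le u (by omega)
    have h3 : 2 ^ (u + 3) = 8 * 2 ^ u := by ring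
    have h4 : 2 ^ (s + 2) ≤ 2 ^ (u + 1) := Nat.pow_le_pow_right (by norm_num) (by omega)
    have h5 : 2 ^ (u + 1) = 2 * 2 ^ u := by ring
    omega
  rw [← pow_add, one_div_pow, mul_one_div, div_le_div_iff₀ (by positivity) (by positivity), one_mul,
    ← pow_add]
  exact pow_le_pow_right₀ (by norm_num) h1

/-- HYM -/
theorem pf_HYM (hCNM : T_CNM) (hCTN : Pool.Agent.H18.XX.T_CTN)
    (hMSB : Pool.Agent.H66.IP.T_MSB) : T_HYM := by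
  intro V E O _ g s B hs hB
  have h0 : ∀ (p : {a // a ∈ E}) (c : Cz V p.1), 0 ≤ m0p (lx V) p.1 c := fun p c =>
    (hMSB (lx V) p.1).1 c
  have h1 : ∀ p : {a // a ∈ E}, ∑ c : Cz V p.1, m0p (lx V) p.1 c = 1 := fun p =>
    (hMSB (lx V) p.1).2.1
  have h2 : ∀ (b : Bool) (p : {a // a ∈ E}) (c : Cz V p.1), 0 ≤ mBp (lx V) p.1 b c :=
    fun b p c => ((hMSB (lx V) p.1).2.2 b).1 c
  have h3 : ∀ (b : Bool) (p : {a // a ∈ E}), ∑ c : Cz V p.1, mBp (lx V) p.1 b c ≤ 1 :=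
    fun b p => ((hMSB (lx V) p.1).2.2 b).2.1
  obtain ⟨-, c2, c3⟩ := hCTN V E
  have key := hCNM {a // a ∈ E} (fun p => Cz V p.1) (fun p => scl (lx V) p.1)
    (fun p => m0p (lx V) p.1) (fun b p => mBp (lx V) p.1 b) (fun P p => ax V (O P g) p.1)
    (fun p => (1 / 2) ^ scl (lx V) p.1 ^ 3) (fun p => 1 / 2 ^ 2 ^ (scl (lx V) p.1 + 3))
    h0 h1 h2 h3 (fun p => by positivity) (fun p => by positivity) c2 s (fun P => ic (B P))
    (fun P => Pool.Agent.H79.OQ.TB1.ic_nonneg _) (fun p hp => hB p hp)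
  refine key.trans (add_le_add le_rfl ?_)
  have c4 := c3 s hs
  have h4 : ∑ p ∈ univ.filter (fun p : {a // a ∈ E} => s < scl (lx V) p.1),
      (2 : ℝ) ^ (univ.filter fun i : {a // a ∈ E} => scl (lx V) i.1 ≤ scl (lx V) p.1).card *
        (1 / 2 ^ 2 ^ (scl (lx V) p.1 + 3)) ≤
      ∑ p ∈ univ.filter (fun p : {a // a ∈ E} => s < scl (lx V) p.1),
        (1 / 2 : ℝ) ^ 2 ^ (s + 2) * (1 / 2 : ℝ) ^ scl (lx V) p.1 ^ 3 := by
    refine sum_le_sum fun p hp => ?_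
    rw [mem_filter] at hp
    exact hym_term s (scl (lx V) p.1) _ hs hp.2
      (Pool.Agent.H40.XX.cntS (lx V) E _ _ fun a ha => (mem_filter.1 ha).2)
  have h5 : 2 * ∑ p ∈ univ.filter (fun p : {a // a ∈ E} => s < scl (lx V) p.1),
        (1 / 2 : ℝ) ^ scl (lx V) p.1 ^ 3 ≤ (1 / 2 : ℝ) ^ s ^ 3 := by
    refine le_trans ?_ c4
    rw [mul_sum]
    refine sum_le_sum fun p _ => ?_
    have : (0 : ℝ) ≤ 2 ^ (univ.filter fun i : {a // a ∈ E} =>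
        scl (lx V) i.1 ≤ scl (lx V) p.1).card * (1 / 2 ^ 2 ^ (scl (lx V) p.1 + 3)) := by
      positivity
    linarith
  rw [← mul_sum] at h4
  have h6 : (1 / 2 : ℝ) ^ s ^ 3 ≤ 1 := pow_le_one₀ (by norm_num) (by norm_num)
  have h7 : (0 : ℝ) < (1 / 2 : ℝ) ^ 2 ^ (s + 2) := by positivity
  calc _ ≤ 2 * ((1 / 2 : ℝ) ^ 2 ^ (s + 2) *
        ∑ p ∈ univ.filter (fun p : {a // a ∈ E} => s < scl (lx V) p.1),
          (1 / 2 : ℝ) ^ scl (lx V) p.1 ^ 3) := mul_le_mul_of_nonneg_left h4 (by norm_num)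
    _ = (1 / 2 : ℝ) ^ 2 ^ (s + 2) *
        (2 * ∑ p ∈ univ.filter (fun p : {a // a ∈ E} => s < scl (lx V) p.1),
          (1 / 2 : ℝ) ^ scl (lx V) p.1 ^ 3) := by ring
    _ ≤ (1 / 2 : ℝ) ^ 2 ^ (s + 2) * 1 :=
        mul_le_mul_of_nonneg_left (h5.trans h6) h7.le
    _ = (1 / 2 : ℝ) ^ 2 ^ (s + 2) := mul_one _

end Pool.Agent.H61.XZ
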